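import Pool.Agent.H590.MA.Prod
import Pool.Agent.H590.MA.Num

/-!
# The Mahler inequality for bodies of small asymmetry, and its `L^p` form

For a convex body `K` of `ℝⁿ` let `v = asym K = V(K, …, K, -K) / |K| ∈ [1, n]` (mean asymmetry; `1` for
symmetric `K`, `n` for simplices; `v ≤ β` if `-(K - c) ⊆ β (K - c)` for some `c`). Then for every
interior point `z`

`n! |K| |(K - z)°| ≥ (2 + 2/v)ⁿ`,

which is the sharp `4ⁿ` for symmetric bodies and is larger than Mahler's bound `(n+1)^(n+1)/n! ~ eⁿ`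
(theorem `MahlerInequality`) exponentially in `n` if `v < 2/(e-2) = 2.78…`. In terms of `β` there is also the
bound `(4 √((β+1)/(3β-1)))ⁿ` (helper798), and for `n = 3` a bound from the Alexandrov-Fenchel inequality.

Consequence for finite `p`: the conjectured inequality `M_p(K) ≥ inf_x M_p(Δ - x)` holds, in all
positions, for all bodies `K` such that `((1+p)^(1+1/p)/p)ⁿ (n+1)^(n+1)/n!` is at most one of these
bounds; for instance for all `p ≥ 100` and all `K` with `asym K ≤ 3/2` if `n ≥ 9`, or with `asym K ≤ 2` if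
`n ≥ 60`.

Proof of the bound. Let `W = {x : |⟨x,u⟩| (h(u) + h(-u)) ≤ h(u) h(-u) for all u}` (`h` the support function of
`K - z`). By the asymmetric form of the symmetric Mahler inequality in the library,
`|W| |(K-z)°| ≥ 2ⁿ/n!`. Since `W` lies in a translate of `a² K + (1-a)² (-K)` for all `a ∈ [0,1]`,
`V(W, K, …, K) ≤ (a² + (1-a)² v) |K|`; the best `a` gives `v/(1+v) |K|`, and by Minkowski's first inequality
`|W| ≤ (v/(1+v))ⁿ |K|`.
-/

set_option autoImplicit false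

noncomputable section

open MeasureTheory Set
open scoped ENNReal Pointwise

namespace Pool.Agent.Results.MP_5f4cdd_gt.AsymmetryBound

variable {n : ℕ}

/-- convex bodies in `ℝⁿ`, in any position -/
def Body (K : Set (Fin n → ℝ)) : Prop := Convex ℝ K ∧ IsCompact K ∧ (interior K).Nonempty

/-- the translate `K - z` -/
def shift (K : Set (Fin n → ℝ)) (z : Fin n → ℝ) : Set (Fin n → ℝ) := (fun x => x - z) '' K

/-- the Mahler volume `M_∞(K) = |K| ∫ exp (-h_K)` -/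
def mahlerInf (K : Set (Fin n → ℝ)) : ℝ≥0∞ :=
  volume K * ∫⁻ y : Fin n → ℝ, ENNReal.ofReal
    (Real.exp (-(sSup ((fun x : Fin n → ℝ => ∑ i, x i * y i) '' K))))

/-- the `L^p` Mahler volume `M_p(K) = |K| ∫ exp (-h_{p,K})`, where `exp (-h_{p,K}(y))` is the power
`-1/p` of the average of `exp (p ⟨x, y⟩)` over `x ∈ K` -/
def mahlerLp (p : ℝ) (K : Set (Fin n → ℝ)) : ℝ≥0∞ :=
  volume K * ∫⁻ y : Fin n → ℝ, ENNReal.ofReal
    (((∫ x in K, Real.exp (p * ∑ i, x i * y i)) / (volume K).toReal) ^ (-(1 / p)))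

/-- the standard simplex -/
def Simplex (n : ℕ) : Set (Fin n → ℝ) := {z | (∀ i, 0 ≤ z i) ∧ ∑ i, z i ≤ 1}

/-- the polar body `K°` -/
def polar (K : Set (Fin n → ℝ)) : Set (Fin n → ℝ) := {y | ∀ x ∈ K, ∑ i, x i * y i ≤ 1}

/-- the mean asymmetry: the infimum over `t > 0` of `(|K + t (-K)| / |K| - 1) / (n t)`, that is, the
quotient `V(K, …, K, -K) / |K|` of mixed volumes -/
def asym (K : Set (Fin n → ℝ)) : ℝ :=
  ⨅ t : Set.Ioi (0 : ℝ),
    (volume.real (K + (t : ℝ) • (-K)) / volume.real K - 1) / (n * (t : ℝ))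

/-- the bounds proved for `n! |K| |(K - z)°|`: `(2 + 2/v)ⁿ`, `v = asym K`; `(4 √((β+1)/(3β-1)))ⁿ` if
`-(K - c) ⊆ β (K - c)`; for `n = 3` also `6 · 16 (1+v)³ (3+v) / (3 v (3v+1)²)` with
`v = (|K - K| / |K| - 2) / 6` -/
def Bound (K : Set (Fin n → ℝ)) (D : ℝ) : Prop :=
  D = (2 + 2 / asym K) ^ n ∨
  (∃ (β : ℝ) (c : Fin n → ℝ), 1 ≤ β ∧ (∀ x ∈ K, c - β⁻¹ • (x - c) ∈ K) ∧
    D = (4 * √((β + 1) / (3 * β - 1))) ^ n) ∨
  (n = 3 ∧ ∃ v : ℝ, v = (volume.real (K - K) / volume.real K - 2) / 6 ∧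
    D = 6 * (16 * (1 + v) ^ 3 * (3 + v) / (3 * v * (3 * v + 1) ^ 2)))

theorem bound_product {n : ℕ} (hn : 1 ≤ n) {K : Set (Fin n → ℝ)} (hK : Body K) {D : ℝ}
    (hD : Bound K D) : 0 < D ∧ ∀ z ∈ interior K,
      ENNReal.ofReal (D / n.factorial) ≤ volume K * volume (polar (shift K z)) := by
  obtain ⟨hv, hc, hi⟩ := hK
  rcases hD with rfl | ⟨β, c, hβ, hsym, rfl⟩ | ⟨rfl, v, hv', rfl⟩
  · obtain ⟨m, rfl⟩ : ∃ m, n = m + 1 := ⟨n - 1, by omega⟩
    obtain ⟨z0, hz0⟩ := hi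
    have h1 : 1 ≤ asym K := (Pool.Agent.H590.MA.product_asym hv hc hz0).1
    refine ⟨?_, fun z hz => (Pool.Agent.H590.MA.product_asym hv hc hz).2⟩
    have : 0 < asym K := by linarith
    positivity
  · have h3 : 0 < 3 * β - 1 := by linarith
    have h4 : 0 < β + 1 := by linarith
    refine ⟨by positivity, fun z hz => ?_⟩
    have h := Pool.Agent.H590.MA.obody_tr hv hc hz
    have h1 := Pool.Agent.H798.NM.product h hβ (c := c - z) (by
      rintro _ ⟨x, hx, rfl⟩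
      refine ⟨c - β⁻¹ • (x - c), hsym x hx, ?_⟩
      show c - β⁻¹ • (x - c) - z = (c - z) - β⁻¹ • ((x - z) - (c - z))
      rw [sub_sub_sub_cancel_right]
      abel)
    rw [Pool.Agent.H322.AM.vol_tr] at h1
    rw [add_comm β 1]
    exact h1
  · obtain ⟨z0, hz0⟩ := hi
    have h0 := Pool.Agent.H590.MA.product_three hv hc hz0
    rw [← hv'] at h0
    have hv1 : 0 < v := by linarith [h0.1]
    refine ⟨by positivity, fun z hz => ?_⟩
    have h1 := Pool.Agent.H590.MA.product_three hv hc hz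
    rw [← hv'] at h1
    refine le_trans (le_of_eq ?_) h1.2.2
    congr 1
    norm_num [Nat.factorial]

/-- **The Mahler inequality with asymmetry.** For all `n ≥ 1` and all convex bodies `K` of `ℝⁿ`:

1. `1 ≤ asym K`, and `asym K ≤ β` if `-(K - c) ⊆ β (K - c)`; for `n = 3`,
   `1 ≤ (|K - K|/|K| - 2)/6 ≤ 3`;
2. for each bound `D` (see `Bound`): `n! |K| |(K - z)°| ≥ D` for all interior points `z`, `M_∞(K) ≥ D` and, for all
   real `p > 0`, `M_p(K) ≥ D` and `M_p(K) ≥ c_pⁿ D^(1+1/(2p))`;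
3. for each bound `D` and each real `p > 0` with `((1+p)^(1+1/p)/p)ⁿ (n+1)^(n+1)/n! ≤ D` or
   `≤ c_pⁿ D^(1+1/(2p))` the inequality of the conjecture holds: `M_p(K) ≥ inf_x M_p(Δ - x)`;
4. in particular for all `p ≥ 100` if `n ≥ 9` and `asym K ≤ 3/2`, or if `n ≥ 60` and `asym K ≤ 2`. -/
theorem result (n : ℕ) (hn : 1 ≤ n) (K : Set (Fin n → ℝ)) (hK : Body K) :
    -- 1
    (1 ≤ asym K ∧
      (∀ (β : ℝ) (c : Fin n → ℝ), 1 ≤ β → (∀ x ∈ K, c - β⁻¹ • (x - c) ∈ K) → asym K ≤ β) ∧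
      (n = 3 → 1 ≤ (volume.real (K - K) / volume.real K - 2) / 6 ∧
        (volume.real (K - K) / volume.real K - 2) / 6 ≤ 3)) ∧
    -- 2, 3
    (∀ D : ℝ, Bound K D →
      (∀ z ∈ interior K,
        ENNReal.ofReal (D / n.factorial) ≤ volume K * volume (polar (shift K z))) ∧
      ENNReal.ofReal D ≤ mahlerInf K ∧
      ∀ p : ℝ, 0 < p →
        ENNReal.ofReal D ≤ mahlerLp p K ∧
        ENNReal.ofReal (((1 + 1 / (2 * p)) ^ (1 + 1 / (2 * p)) *
          (p / (2 * Real.pi)) ^ (1 / (2 * p))) ^ n * D ^ (1 + 1 / (2 * p))) ≤ mahlerLp p K ∧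
        ((((1 + p) ^ (1 + 1 / p) / p) ^ n * (((n : ℝ) + 1) ^ (n + 1) / n.factorial) ≤ D ∨
          ((1 + p) ^ (1 + 1 / p) / p) ^ n * (((n : ℝ) + 1) ^ (n + 1) / n.factorial) ≤
            ((1 + 1 / (2 * p)) ^ (1 + 1 / (2 * p)) *
              (p / (2 * Real.pi)) ^ (1 / (2 * p))) ^ n * D ^ (1 + 1 / (2 * p))) →
          (⨅ x ∈ Simplex n, mahlerLp p (shift (Simplex n) x)) ≤ mahlerLp p K)) ∧
    -- 4
    ∀ p : ℝ, 100 ≤ p → ((9 ≤ n ∧ asym K ≤ 3 / 2) ∨ (60 ≤ n ∧ asym K ≤ 2)) →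
      (⨅ x ∈ Simplex n, mahlerLp p (shift (Simplex n) x)) ≤ mahlerLp p K := by
  obtain ⟨hv, hc, hi⟩ := id hK
  obtain ⟨z0, hz0⟩ := id hi
  -- the simplex
  have hinf : ∀ p : ℝ, 0 < p → (⨅ x ∈ Simplex n, mahlerLp p (shift (Simplex n) x)) ≤
      ENNReal.ofReal (((1 + p) ^ (1 + 1 / p) / p) ^ n *
        (((n : ℝ) + 1) ^ (n + 1) / n.factorial)) := by
    intro p hp
    have h1p : 0 < 1 + p := by linarith
    have h2 := Pool.Agent.H322.AM.mp_le
      (Pool.Agent.H322.AM.tr_compact (Pool.Agent.H322.AM.Sx_compact n)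
        (fun _ => 1 / ((n : ℝ) + 1)))
      (Pool.Agent.H322.AM.tr_convex (Pool.Agent.H322.AM.Sx_convex n) _)
      (Pool.Agent.H322.AM.tr_int_nonempty ⟨_, Pool.Agent.H322.AM.Sx_nonempty_int n⟩ _)
      Pool.Agent.H322.AM.int_tr_Sx hp
      (by positivity : (0 : ℝ) < 1 / (1 + p)) (by rw [div_lt_one h1p]; linarith)
    rw [Pool.Agent.H590.MA.factor_eq hp, Pool.Agent.H322.AM.mi_centroid,
      ← ENNReal.ofReal_mul (by positivity)] at h2
    exact (iInf₂_le _ (interior_subset (Pool.Agent.H322.AM.Sx_nonempty_int n))).trans h2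
  have hB : ∀ D : ℝ, Bound K D →
      (∀ z ∈ interior K,
        ENNReal.ofReal (D / n.factorial) ≤ volume K * volume (polar (shift K z))) ∧
      ENNReal.ofReal D ≤ mahlerInf K ∧
      ∀ p : ℝ, 0 < p →
        ENNReal.ofReal D ≤ mahlerLp p K ∧
        ENNReal.ofReal (((1 + 1 / (2 * p)) ^ (1 + 1 / (2 * p)) *
          (p / (2 * Real.pi)) ^ (1 / (2 * p))) ^ n * D ^ (1 + 1 / (2 * p))) ≤ mahlerLp p K ∧
        ((((1 + p) ^ (1 + 1 / p) / p) ^ n * (((n : ℝ) + 1) ^ (n + 1) / n.factorial) ≤ D ∨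
          ((1 + p) ^ (1 + 1 / p) / p) ^ n * (((n : ℝ) + 1) ^ (n + 1) / n.factorial) ≤
            ((1 + 1 / (2 * p)) ^ (1 + 1 / (2 * p)) *
              (p / (2 * Real.pi)) ^ (1 / (2 * p))) ^ n * D ^ (1 + 1 / (2 * p))) →
          (⨅ x ∈ Simplex n, mahlerLp p (shift (Simplex n) x)) ≤ mahlerLp p K) := by
    intro D hD
    obtain ⟨hD0, hprod⟩ := bound_product hn hK hD
    refine ⟨hprod, Pool.Agent.H590.MA.mi_of hD0.le hv hc hi hprod, fun p hp => ?_⟩
    have h1 : ENNReal.ofReal D ≤ mahlerLp p K := Pool.Agent.H590.MA.mp_of hD0.le hv hc hi hprod hp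
    have h2 := Pool.Agent.H590.MA.gain_of hD0 hv hc hi hprod hp
    refine ⟨h1, h2, ?_⟩
    rintro (h | h)
    · exact (hinf p hp).trans ((ENNReal.ofReal_le_ofReal h).trans h1)
    · exact (hinf p hp).trans ((ENNReal.ofReal_le_ofReal h).trans h2)
  have ha1 : 1 ≤ asym K := by
    obtain ⟨m, rfl⟩ : ∃ m, n = m + 1 := ⟨n - 1, by omega⟩
    exact (Pool.Agent.H590.MA.product_asym hv hc hz0).1
  refine ⟨⟨ha1, ?_, ?_⟩, hB, ?_⟩
  · intro β c hβ hsym
    obtain ⟨m, rfl⟩ : ∃ m, n = m + 1 := ⟨n - 1, by omega⟩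
    have h := Pool.Agent.H590.MA.obody_tr hv hc hz0
    have h1 := Pool.Agent.H590.MA.asym_le h hβ (c := c - z0) (by
      rintro _ ⟨x, hx, rfl⟩
      refine ⟨c - β⁻¹ • (x - c), hsym x hx, ?_⟩
      show c - β⁻¹ • (x - c) - z0 = (c - z0) - β⁻¹ • ((x - z0) - (c - z0))
      rw [sub_sub_sub_cancel_right]
      abel)
    rw [Pool.Agent.H590.MA.asym_tr] at h1
    exact h1
  · rintro rfl
    have h := Pool.Agent.H590.MA.product_three hv hc hz0
    exact ⟨h.1, h.2.1⟩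
  · intro p hp h
    have hp0 : 0 < p := by linarith
    exact (hB _ (Or.inl rfl)).2.2 p hp0 |>.2.2
      (Or.inl (Pool.Agent.H590.MA.explicit hp ha1 h))

end Pool.Agent.Results.MP_5f4cdd_gt.AsymmetryBound
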